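import Pool.Agent.H914R2.ExtOp

/-!
Project HJ (helper204), part NC: two maps whose pull-backs generate the cohomology.
-/

set_option autoImplicit false

open CategoryTheory AlgebraicGeometry Finset TensorProduct

universe u v

namespace Pool.Agent.N681.HJ

open Pool.Agent.H914 Pool.Agent.H914.VarClass Pool.Agent.H914.VarClass.Obj
  Pool.Agent.H914.WeilCohomology

variable {k : Type u} [Field k] {𝒱 : VarClass k} {ops : CycleOps 𝒱}
  {W : WeilCohomology.{u, v} ops} {X Y Z : 𝒱.Obj}

/-- linear functionals are determined by their values on homogeneous elements -/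
lemma lin_ext {V : Type*} [AddCommGroup V] [Module W.K V] {F G : W.H X →ₗ[W.K] V}
    (h : ∀ i, ∀ a ∈ W.gr X i, F a = G a) : F = G := by
  apply LinearMap.ext
  intro x
  have hx : x ∈ ⨆ i, W.gr X i := by
    rw [(W.isInternal X).submodule_iSup_eq_top]
    exact Submodule.mem_top
  induction hx using Submodule.iSup_induction' with
  | mem i x hx => exact h i x hx
  | zero => rw [map_zero, map_zero]
  | add x y _ _ hx hy => rw [map_add, map_add, hx, hy]

/-- the trace is injective on the top degree -/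
lemma top_inj {a : W.H X} (ha : a ∈ W.gr X (2 * X.dim)) (h : W.tr X a = 0) : a = 0 := by
  apply W.nondeg a
  have h1 : W.tr X ∘ₗ LinearMap.mulLeft W.K a = 0 := by
    apply lin_ext (W := W)
    intro i b hb
    rw [LinearMap.comp_apply, LinearMap.mulLeft_apply, LinearMap.zero_apply]
    rcases Nat.eq_zero_or_pos i with hi | hi
    · rw [hi, W.gr_zero X, Submodule.mem_span_singleton] at hb
      obtain ⟨r, rfl⟩ := hb
      rw [mul_smul_comm, mul_one, map_smul, h, smul_zero]
    · have h2 := W.mul_mem ha hb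
      rw [W.gr_eq_bot X _ (by omega), Submodule.mem_bot] at h2
      rw [h2, map_zero]
  intro b
  exact LinearMap.congr_fun h1 b

/-- a bijective endomorphism scales the trace -/
lemma scale (g : X ⟶ X) (hg : Function.Surjective (W.map g)) :
    ∃ c : W.K, c ≠ 0 ∧ ∀ y, W.tr X (W.map g y) = c * W.tr X y := by
  have hinj : Function.Injective (W.map g) :=
    (LinearMap.injective_iff_surjective (f := (W.map g).toLinearMap)).2 hg
  by_cases h0 : ∃ w ∈ W.gr X (2 * X.dim), W.tr X w ≠ 0
  · obtain ⟨w, hw, hw0⟩ := h0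
    have hgw : W.tr X (W.map g w) ≠ 0 := by
      intro h
      have h1 := top_inj (W.map_mem g hw) h
      rw [← map_zero (W.map g)] at h1
      exact hw0 (by rw [hinj h1, map_zero])
    refine ⟨W.tr X (W.map g w) / W.tr X w, div_ne_zero hgw hw0, ?_⟩
    have h1 : W.tr X ∘ₗ (W.map g).toLinearMap = (W.tr X (W.map g w) / W.tr X w) • W.tr X := by
      apply lin_ext (W := W)
      intro i y hy
      rw [LinearMap.comp_apply, LinearMap.smul_apply, smul_eq_mul]
      change W.tr X (W.map g y) = _
      by_cases hi : i = 2 * X.dim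
      · rw [hi] at hy
        have h2 : y - (W.tr X y / W.tr X w) • w = 0 := by
          apply top_inj ((W.gr X (2 * X.dim)).sub_mem hy ((W.gr X (2 * X.dim)).smul_mem _ hw))
          rw [map_sub, map_smul, smul_eq_mul, div_mul_cancel₀ _ hw0, sub_self]
        have h3 : y = (W.tr X y / W.tr X w) • w := sub_eq_zero.1 h2
        have h4 : W.map g y = (W.tr X y / W.tr X w) • W.map g w := by
          conv_lhs => rw [h3]
          rw [map_smul]
        rw [h4, map_smul, smul_eq_mul]
        ring
      · rw [W.tr_eq_zero (W.map_mem g hy) hi, W.tr_eq_zero hy hi, mul_zero]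
    intro y
    exact LinearMap.congr_fun h1 y
  · push Not at h0
    have h1 : W.tr X = 0 := by
      apply lin_ext (W := W)
      intro i y hy
      rw [LinearMap.zero_apply]
      by_cases hi : i = 2 * X.dim
      · exact h0 y (hi ▸ hy)
      · exact W.tr_eq_zero hy hi
    refine ⟨1, one_ne_zero, fun y => ?_⟩
    rw [h1, LinearMap.zero_apply, LinearMap.zero_apply, mul_zero]

lemma map_lift_tmul {V : 𝒱.Obj} (a : V ⟶ Y) (b : V ⟶ Z) (x : W.H Y) (y : W.H Z) :
    W.map (Obj.lift a b) (W.map (fst Y Z) x * W.map (snd Y Z) y) = W.map a x * W.map b y := by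
  rw [map_mul (W.map (Obj.lift a b)), ← W.map_comp, ← W.map_comp, Obj.lift_fst, Obj.lift_snd]

theorem core (a : Y.prod Z ⟶ Y) (b : Y.prod Z ⟶ Z)
    (hP : ∀ P : Submodule W.K (W.H (Y.prod Z)), (∀ x y, W.map a x * W.map b y ∈ P) → P = ⊤) :
    ∃ c : W.K, c ≠ 0 ∧ ∀ u : Module.End W.K (W.H Z),
      (∃ t : Module.End W.K (W.H (Y.prod Z)), ∀ x y,
        t (W.map a x * W.map b y) = W.map a x * W.map b (u y)) ∧
      ∀ t : Module.End W.K (W.H (Y.prod Z)),
        (∀ x y, t (W.map a x * W.map b y) = W.map a x * W.map b (u y)) →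
        ∀ z x z₁ x₁,
          (∀ y, W.tr (Y.prod Z) (y * z₁) = W.tr (Y.prod Z) (W.map (Obj.lift a b) y * z)) →
          (∀ y, W.tr (Y.prod Z) (y * x₁) = W.tr (Y.prod Z) (W.map (Obj.lift a b) y * x)) →
          W.tr (Y.prod Z) (z₁ * extOp W (1 : Module.End W.K (W.H Y)) u x₁) =
            c * W.tr (Y.prod Z) (z * t x) := by
  have hsur : Function.Surjective (W.map (Obj.lift a b)) := by
    have h1 := hP (LinearMap.range (W.map (Obj.lift a b)).toLinearMap) (fun x y =>
      ⟨W.map (fst Y Z) x * W.map (snd Y Z) y, map_lift_tmul a b x y⟩)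
    exact LinearMap.range_eq_top.1 h1
  obtain ⟨c, hc, hcy⟩ := scale (Obj.lift a b) hsur
  have hinj : Function.Injective (W.map (Obj.lift a b)) :=
    (LinearMap.injective_iff_surjective (f := (W.map (Obj.lift a b)).toLinearMap)).2 hsur
  refine ⟨c, hc, fun u => ⟨?_, ?_⟩⟩
  · let e : W.H (Y.prod Z) ≃ₗ[W.K] W.H (Y.prod Z) :=
      LinearEquiv.ofBijective (W.map (Obj.lift a b)).toLinearMap ⟨hinj, hsur⟩
    refine ⟨e.toLinearMap ∘ₗ extOp W (1 : Module.End W.K (W.H Y)) u ∘ₗ e.symm.toLinearMap,
      fun x y => ?_⟩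
    have h1 : e (W.map (fst Y Z) x * W.map (snd Y Z) y) = W.map a x * W.map b y :=
      map_lift_tmul a b x y
    rw [LinearMap.comp_apply, LinearMap.comp_apply, LinearEquiv.coe_coe, LinearEquiv.coe_coe, ← h1,
      LinearEquiv.symm_apply_apply, extOp_tmul]
    exact map_lift_tmul a b x (u y)
  · intro t ht z x z₁ x₁ hz hx
    have h1 : t ∘ₗ (W.map (Obj.lift a b)).toLinearMap =
        (W.map (Obj.lift a b)).toLinearMap ∘ₗ extOp W (1 : Module.End W.K (W.H Y)) u := by
      apply ext_kunneth_lin
      intro x y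
      rw [LinearMap.comp_apply, LinearMap.comp_apply, extOp_tmul]
      change t (W.map (Obj.lift a b) _) = W.map (Obj.lift a b) _
      rw [map_lift_tmul, map_lift_tmul, ht]
      rfl
    have h2 : ∀ w, t (W.map (Obj.lift a b) w) =
        W.map (Obj.lift a b) (extOp W (1 : Module.End W.K (W.H Y)) u w) :=
      fun w => LinearMap.congr_fun h1 w
    obtain ⟨z', rfl⟩ := hsur z
    obtain ⟨x', rfl⟩ := hsur x
    have h3 : ∀ w w₁ : W.H (Y.prod Z),
        (∀ y, W.tr (Y.prod Z) (y * w₁) =
          W.tr (Y.prod Z) (W.map (Obj.lift a b) y * W.map (Obj.lift a b) w)) → w₁ = c • w := by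
      intro w w₁ hw
      have h4 : w₁ - c • w = 0 := by
        apply nondeg_right (W := W)
        intro y
        rw [mul_sub, map_sub, hw y, ← map_mul (W.map (Obj.lift a b)), hcy, mul_smul_comm, map_smul,
          smul_eq_mul, sub_self]
      exact sub_eq_zero.1 h4
    rw [h3 z' z₁ hz, h3 x' x₁ hx, h2, ← map_mul (W.map (Obj.lift a b)), hcy, map_smul,
      smul_mul_assoc, mul_smul_comm, map_smul, map_smul, smul_eq_mul, smul_eq_mul]

end Pool.Agent.N681.HJ
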