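import Pool.Agent.N204.HJ.Stm2
import Pool.Agent.N681.HJ.NCCore

/-!
Project HJ (helper204), part NC: two coordinate maps whose pull-backs generate the cohomology.
-/

open CategoryTheory AlgebraicGeometry TensorProduct

universe u

namespace Pool.Agent.N681.HJ

open Pool.Agent.H914 Pool.Agent.H914.VarClass Pool.Agent.H914.VarClass.Obj
open Pool.Agent.Y133.Half (pw)
open Pool.Agent.N996.BP (IsCoordinateMap pr)

theorem coord {k : Type u} [Field k] {𝒱 : VarClass k} (X : 𝒱.Obj) (n : ℕ)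
    (a : pw X (n + 1) ⟶ pw X n) (b : pw X (n + 1) ⟶ X)
    (ha : IsCoordinateMap a) (hb : IsCoordinateMap (n := 0) (show pw X (n + 1) ⟶ pw X 0 from b)) :
    IsCoordinateMap (n := n + 1) (m := n + 1)
      (show pw X (n + 1) ⟶ pw X (n + 1) from Obj.lift (X := pw X n) (Y := X) a b) := by
  intro i hi
  by_cases h : i ≤ n
  · obtain ⟨j, hj, e⟩ := ha i h
    refine ⟨j, hj, ?_⟩
    have e1 : pr X (n + 1) i = fst (pw X n) X ≫ pr X n i := if_pos h
    rw [e1]
    change Obj.lift (X := pw X n) (Y := X) a b ≫ fst (pw X n) X ≫ pr X n i = _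
    rw [← Category.assoc, Obj.lift_fst, e]
  · obtain ⟨j, hj, e⟩ := hb 0 le_rfl
    refine ⟨j, hj, ?_⟩
    have e1 : pr X (n + 1) i = snd (pw X n) X := if_neg h
    rw [e1]
    change Obj.lift (X := pw X n) (Y := X) a b ≫ snd (pw X n) X = _
    rw [Obj.lift_snd, ← e]
    exact (Category.comp_id b).symm

theorem nc : Pool.Agent.N204.HJ.S_NC.{u} := by
  intro k _ 𝒱 ops W X n a b ha hb hP
  obtain ⟨c, hc, h⟩ := core (W := W) (Y := pw X n) (Z := X) a b hP
  refine ⟨c, Obj.lift (X := pw X n) (Y := X) a b, hc, coord X n a b ha hb, fun u => ?_⟩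
  exact h u

end Pool.Agent.N681.HJ
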